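import Pool.Agent.H18.CS.ExcMain

set_option autoImplicit false

/-!
# Every cubic character: power saving outside few residue classes modulo the large part of the conductor

Let `χ` be a primitive cubic character of conductor `f ≤ Q` and let `P` be the product of the primes
`p > Q ^ ((1 - η) / n)` dividing `f`. For every `n ≥ 1` and `0 < η ≤ 1 / 2` the bound of `C_n`,
`|S_χ(M, N)| ≤ c Q ^ ((1 - δ) / n)` for all `N ≤ Q ^ (1 / n)`, is proved for all integers `M` outside at most
`c √P Q ^ (ε / n)` residue classes modulo `P`, for every `ε > 0` with some `δ > 0` depending on `n`, `η`, `ε`. So in each interval of `P` consecutive positions all but about `√P`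
positions are good, although `P` may be much smaller than the conductor (the classical mean values over a complete
period only give at most about `√f` exceptional positions in a period of length `f`, which could all lie in one short
interval); the part of `χ` modulo `f / P`, of any size, has no influence on the exceptional classes. Moreover, if
`P ≥ Q ^ (1 / n)`, among positions which are `Q ^ (1 / n)`-spaced modulo `P` at most `c √P Q ^ ((ε - 1) / n)` are bad.

Proof. The part modulo `f / P` is removed by the inequality of van der Corput with the shifts by multiples of its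
factors, at one position (so that different differences may be bad at different positions, and most of them are good
at the positions outside the exceptional set). For the iterated differences of the part modulo `P` the moments of the
short sums of order `2 n` are bounded by Weil's bound (from the library); here the products of shifts are analysed
modulo each prime factor of `P` separately, and the number of the degenerate ones is bounded.
-/

namespace Pool.Agent.Results.MP_081200_nt.ExceptionalClasses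

open Finset

/-- `S_χ(M, N)`, the sum of `χ(a)` over the integers `M < a ≤ M + N` -/
noncomputable def charSum {q : ℕ} (χ : DirichletCharacter ℂ q) (M : ℤ) (N : ℕ) : ℂ :=
  ∑ a ∈ Finset.Ioc M (M + (N : ℤ)), χ (a : ZMod q)

open Classical in
/-- the product of the primes `p > z` which divide `f` -/
noncomputable def largePart (f : ℕ) (z : ℝ) : ℕ :=
  ∏ p ∈ f.primeFactors.filter (fun p : ℕ => z < p), p

/-- the bound `|S_χ(M, N)| ≤ B` for all lengths `1 ≤ N ≤ X` -/
def Good {q : ℕ} (χ : DirichletCharacter ℂ q) (X B : ℝ) (M : ℤ) : Prop :=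
  ∀ N : ℕ, 1 ≤ N → (N : ℝ) ≤ X → ‖charSum χ M N‖ ≤ B

/-- the positions are `X`-spaced modulo `P` -/
def Spaced (P : ℕ) (X : ℝ) (S : Finset ℤ) : Prop :=
  ∀ M ∈ S, ∀ M' ∈ S, M ≠ M' → ∀ k : ℤ, X ≤ |(M : ℝ) - M' - k * P|

lemma shift {q : ℕ} (χ : DirichletCharacter ℂ q) (M : ℤ) (N j : ℕ) :
    ‖charSum χ M N‖ ≤ ‖charSum χ (M + j) N‖ + 2 * j := by
  have h1 : ∀ M : ℤ, charSum χ M N = Pool.Agent.H18.CS.I (fun k : ℤ => χ (k : ZMod q)) (M + 1) N :=
    fun M => Pool.Agent.R524.Cubic.S_eq_range χ M N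
  have h2 := Pool.Agent.H18.CS.I_shift (g := fun k : ℤ => χ (k : ZMod q))
    (fun k => DirichletCharacter.norm_le_one χ _) (M + 1) N j
  rw [h1, h1, show M + (j : ℤ) + 1 = M + 1 + j by ring]
  have h3 := norm_sub_norm_le (Pool.Agent.H18.CS.I (fun k : ℤ => χ (k : ZMod q)) (M + 1) N)
    (Pool.Agent.H18.CS.I (fun k : ℤ => χ (k : ZMod q)) (M + 1 + j) N)
  linarith

open Classical in
theorem result (n : ℕ) (hn : 1 ≤ n) (η : ℝ) (hη : 0 < η) (hη2 : η ≤ 1 / 2) (ε : ℝ) (hε : 0 < ε) :
    ∃ δ : ℝ, 0 < δ ∧ ∃ c : ℝ, ∀ Q : ℝ, 3 ≤ Q → ∀ f : ℕ, 1 ≤ f → (f : ℝ) ≤ Q →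
      ∀ χ : DirichletCharacter ℂ f, χ ^ 3 = 1 → χ ≠ 1 → χ.IsPrimitive →
      (∃ E : Finset (ZMod (largePart f (Q ^ ((1 - η) / n)))),
        (E.card : ℝ) ≤ c * (Real.sqrt (largePart f (Q ^ ((1 - η) / n))) * Q ^ (ε / n)) ∧
        ∀ M : ℤ, (M : ZMod (largePart f (Q ^ ((1 - η) / n)))) ∉ E →
          Good χ (Q ^ (1 / (n : ℝ))) (c * Q ^ ((1 - δ) / n)) M) ∧
      (Q ^ (1 / (n : ℝ)) ≤ (largePart f (Q ^ ((1 - η) / n)) : ℝ) →
        ∀ S : Finset ℤ, Spaced (largePart f (Q ^ ((1 - η) / n))) (Q ^ (1 / (n : ℝ))) S →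
        (((S.filter (fun M => ¬ Good χ (Q ^ (1 / (n : ℝ))) (c * Q ^ ((1 - δ) / n)) M)).card : ℕ) : ℝ) ≤
          c * (Real.sqrt (largePart f (Q ^ ((1 - η) / n))) * Q ^ ((ε - 1) / n))) := by
  have hn0 : (0 : ℝ) < n := by exact_mod_cast hn
  obtain ⟨δ₀, hδ₀, c₀, h⟩ := Pool.Agent.H18.CS.exc n hn η hη hη2 (ε / 2) (by positivity)
  refine ⟨min δ₀ (ε / 2), by positivity, |c₀| + 2, ?_⟩
  set δ : ℝ := min δ₀ (ε / 2) with hδdef
  have hδ : 0 < δ := by positivity
  have hδ1 : δ ≤ δ₀ := min_le_left _ _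
  have hδ2 : δ ≤ ε / 2 := min_le_right _ _
  intro Q hQ f hf hfQ χ h3 hne hprim
  have hQ0 : 0 < Q := by linarith
  set X : ℝ := Q ^ (1 / (n : ℝ)) with hXdef
  have hX1 : 1 < X := Real.one_lt_rpow (by linarith) (by positivity)
  have hX0 : 0 < X := by linarith
  have hpow : ∀ a : ℝ, Q ^ (a / n) = X ^ a := by
    intro a
    rw [hXdef, ← Real.rpow_mul hQ0.le]
    congr 1
    ring
  obtain ⟨E, hE1, hE2⟩ := h Q hQ f hf hfQ χ h3 hne hprim
  have hE1' : (E.card : ℝ) ≤ |c₀| * (Real.sqrt (largePart f (Q ^ ((1 - η) / n))) * X ^ (ε / 2)) := by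
    have h1 : (E.card : ℝ) ≤ c₀ * (Real.sqrt (largePart f (Q ^ ((1 - η) / n))) * X ^ (ε / 2)) := by
      rw [← hpow]; exact hE1
    exact h1.trans (mul_le_mul_of_nonneg_right (le_abs_self _) (by positivity))
  have hE2' : ∀ M : ℤ, (M : ZMod (largePart f (Q ^ ((1 - η) / n)))) ∉ E →
      ∀ N : ℕ, 1 ≤ N → (N : ℝ) ≤ X → ‖charSum χ M N‖ ≤ |c₀| * X ^ (1 - δ) := by
    intro M hM N hN hNX
    have h1 : ‖charSum χ M N‖ ≤ c₀ * Q ^ ((1 - δ₀) / n) := hE2 M hM N hN hNX
    rw [hpow] at h1
    calc ‖charSum χ M N‖ ≤ c₀ * X ^ (1 - δ₀) := h1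
      _ ≤ |c₀| * X ^ (1 - δ₀) := mul_le_mul_of_nonneg_right (le_abs_self _) (by positivity)
      _ ≤ |c₀| * X ^ (1 - δ) := by
          apply mul_le_mul_of_nonneg_left _ (abs_nonneg _)
          exact Real.rpow_le_rpow_of_exponent_le hX1.le (by linarith)
  clear hE1 hE2 h
  rw [hpow (1 - δ), hpow ε, hpow (ε - 1)]
  set P : ℕ := largePart f (Q ^ ((1 - η) / n)) with hP
  have hc0 : 0 ≤ |c₀| := abs_nonneg _
  constructor
  · refine ⟨E, ?_, ?_⟩
    · refine hE1'.trans ?_
      have h1 : X ^ (ε / 2) ≤ X ^ ε := Real.rpow_le_rpow_of_exponent_le hX1.le (by linarith)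
      have h2 : |c₀| ≤ |c₀| + 2 := by linarith
      gcongr
    · intro M hM N hN hNX
      refine (hE2' M hM N hN hNX).trans ?_
      apply mul_le_mul_of_nonneg_right _ (by positivity)
      linarith
  · intro hPX S hS
    set Bad := S.filter (fun M => ¬ Good χ X ((|c₀| + 2) * X ^ (1 - δ)) M) with hBad
    set J : ℕ := ⌊X ^ (1 - δ)⌋₊ + 1 with hJ
    have hJle : ∀ j : ℕ, j < J → (j : ℝ) ≤ X ^ (1 - δ) := by
      intro j hj
      have h1 : j ≤ ⌊X ^ (1 - δ)⌋₊ := by omega
      exact (by exact_mod_cast h1 : (j : ℝ) ≤ (⌊X ^ (1 - δ)⌋₊ : ℝ)).trans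
        (Nat.floor_le (by positivity))
    have hJX : X ^ (1 - δ) ≤ J := by
      rw [hJ]
      push_cast
      exact (Nat.lt_floor_add_one _).le
    have hlt : X ^ (1 - δ) < X := by
      conv_rhs => rw [← Real.rpow_one X]
      exact Real.rpow_lt_rpow_of_exponent_lt hX1 (by linarith)
    have hmem : ∀ u ∈ Bad ×ˢ range J, (((u.1 + u.2 : ℤ)) : ZMod P) ∈ E := by
      intro u hu
      rw [mem_product, hBad, mem_filter, mem_range] at hu
      obtain ⟨⟨_, hnot⟩, hj⟩ := hu
      by_contra hno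
      apply hnot
      intro N hN hNX
      have h1 := hE2' _ hno N hN hNX
      have h2 := shift χ u.1 N u.2
      have h4 := hJle u.2 hj
      calc ‖charSum χ u.1 N‖ ≤ ‖charSum χ (u.1 + u.2) N‖ + 2 * u.2 := h2
        _ ≤ |c₀| * X ^ (1 - δ) + 2 * X ^ (1 - δ) := by linarith
        _ = (|c₀| + 2) * X ^ (1 - δ) := by ring
    have hinj : Set.InjOn (fun u : ℤ × ℕ => (((u.1 + u.2 : ℤ)) : ZMod P))
        ((Bad ×ˢ range J : Finset (ℤ × ℕ)) : Set (ℤ × ℕ)) := by
      intro u hu v hv huv
      rw [mem_coe, mem_product, hBad, mem_filter, mem_range] at hu hv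
      dsimp only at huv
      rw [ZMod.intCast_eq_intCast_iff, Int.modEq_iff_dvd] at huv
      obtain ⟨k, hk⟩ := huv
      have hju := hJle u.2 hu.2
      have hjv := hJle v.2 hv.2
      have hu0 : (0 : ℝ) ≤ u.2 := Nat.cast_nonneg _
      have hv0 : (0 : ℝ) ≤ v.2 := Nat.cast_nonneg _
      have hkR : (v.1 : ℝ) + v.2 - (u.1 + u.2) = P * k := by exact_mod_cast hk
      by_cases hM : u.1 = v.1
      · rw [hM] at hkR
        have h1 : (P : ℝ) * k = (v.2 : ℝ) - u.2 := by linarith
        have h2 : |(P : ℝ) * k| < P := by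
          rw [h1, abs_lt]
          constructor <;> linarith
        have hP0 : (0 : ℝ) < P := by linarith
        rw [abs_mul, abs_of_pos hP0] at h2
        have h4 : |(k : ℝ)| < 1 := by
          by_contra hc
          push Not at hc
          nlinarith
        have h5 : k = 0 := by
          have : |k| < 1 := by exact_mod_cast h4
          exact Int.abs_lt_one_iff.mp this
        rw [h5] at h1
        have h6 : (v.2 : ℝ) = u.2 := by
          push_cast at h1
          linarith
        have h7 : v.2 = u.2 := by exact_mod_cast h6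
        exact Prod.ext hM h7.symm
      · exfalso
        have h1 := hS v.1 hv.1.1 u.1 hu.1.1 (Ne.symm hM) k
        have h2 : (v.1 : ℝ) - u.1 - k * P = (u.2 : ℝ) - v.2 := by linarith
        rw [h2] at h1
        have h4 : |(u.2 : ℝ) - v.2| < X := by
          rw [abs_lt]
          constructor <;> linarith
        linarith
    have hcard : (Bad.card : ℝ) * J ≤ E.card := by
      have h1 := card_le_card_of_injOn _ hmem hinj
      rw [card_product, card_range] at h1
      exact_mod_cast h1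
    have h1 : (Bad.card : ℝ) * X ^ (1 - δ) ≤ |c₀| * (Real.sqrt P * X ^ (ε / 2)) :=
      (mul_le_mul_of_nonneg_left hJX (Nat.cast_nonneg _)).trans (hcard.trans hE1')
    have hXp : 0 < X ^ (1 - δ) := by positivity
    rw [← le_div_iff₀ hXp] at h1
    refine h1.trans ?_
    rw [div_le_iff₀ hXp]
    have h2 : X ^ (ε / 2) ≤ X ^ (ε - 1) * X ^ (1 - δ) := by
      rw [← Real.rpow_add hX0]
      exact Real.rpow_le_rpow_of_exponent_le hX1.le (by linarith)
    calc |c₀| * (Real.sqrt P * X ^ (ε / 2)) ≤ (|c₀| + 2) * (Real.sqrt P * (X ^ (ε - 1) * X ^ (1 - δ))) := by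
          have : |c₀| ≤ |c₀| + 2 := by linarith
          gcongr
      _ = _ := by ring

end Pool.Agent.Results.MP_081200_nt.ExceptionalClasses
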