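import Pool.Agent.H18.CS.Main

set_option autoImplicit false

/-!
# Power saving at ALL positions for all cubic characters whose conductor has small large part

`C_n` asks for `|S_χ(M, N)| ≤ c Q ^ ((1 - δ) / n + ε)` for all nonprincipal cubic characters `χ` of modulus `q ≤ Q`,
all positions `M` and all lengths `N ≤ Q ^ (1 / n)`. The following is proved for every `n ≥ 1` and every `η > 0`: the
bound of `C_n` holds, with some `δ > 0` depending on `n` and `η` only (and without the `ε`), for all positions `M`,
all lengths `N ≤ Q ^ (1 / n)` and all nonprincipal cubic characters of modulus `q ≤ Q` for which the product of the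
primes `p > Q ^ ((1 - η) / n)` dividing the conductor is at most `Q ^ ((2 - η) / n)`. So all prime factors of the
conductor except one may be as large as `Q ^ ((1 - η) / n)`, nearly the length of the interval, and one prime factor
may be as large as `Q ^ ((2 - η) / n)`, nearly its square; the number of the prime factors and the size of the
conductor (up to `Q`, the `n`-th power of the length) are not restricted. Hence `C_n` is equivalent to the same
statement for the remaining characters, in whose conductor the product of the primes `p > Q ^ ((1 - η) / n)` exceeds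
`Q ^ ((2 - η) / n)`.

Proof. The character is induced by a primitive cubic one, whose conductor is a product of distinct primes congruent to
`1` modulo `3` and possibly `9`. The primes are grouped: one coprime factor `m` of the conductor, between
`X ^ (η / 2)` and `X ^ (2 - η)`, where `X = Q ^ (1 / n)`, contains the large primes, and the rest is a product of a
bounded number of coprime factors `q_j ≤ X ^ (1 - η / 2)`. For each `q_j` the inequality of van der Corput is applied
with the shifts by the multiples of `q_j` (as in the work of Heath-Brown and of Graham and Ringrose), which removes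
the part modulo `q_j`. There remain sums of iterated differences of the part modulo `m`; one more difference and
Weil's bound (from the library, `Pool.Agent.H435R3.Weil.weil`) for the complete sums of the products of shifted
characters give the saving. The differences do not degenerate: in `F_3 [Z / p]` no product of elements
`1 - [a]`, `a ≠ 0`, vanishes, as `p` is congruent to `1` modulo `3`.
-/

namespace Pool.Agent.Results.MP_081200_nt.FactorableConductors

open Finset

/-- `S_χ(M, N)`, the sum of `χ(a)` over the integers `M < a ≤ M + N` -/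
noncomputable def charSum {q : ℕ} (χ : DirichletCharacter ℂ q) (M : ℤ) (N : ℕ) : ℂ :=
  ∑ a ∈ Finset.Ioc M (M + (N : ℤ)), χ (a : ZMod q)

/-- the product of the primes `p > z` which divide `f` -/
noncomputable def largePart (f : ℕ) (z : ℝ) : ℝ :=
  ∏ p ∈ f.primeFactors.filter (fun p : ℕ => z < p), (p : ℝ)

/-- the statement `C_n` for the characters with the property `P Q χ` -/
def C (n : ℕ) (P : ℝ → (q : ℕ) → DirichletCharacter ℂ q → Prop) : Prop :=
  ∃ δ : ℝ, 0 < δ ∧ ∀ ε : ℝ, 0 < ε → ∃ c : ℝ, ∀ Q : ℝ, 3 ≤ Q →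
    ∀ N : ℕ, 1 ≤ N → (N : ℝ) ≤ Q ^ (1 / (n : ℝ)) → ∀ M : ℤ,
      ∀ q : ℕ, 1 ≤ q → (q : ℝ) ≤ Q → ∀ χ : DirichletCharacter ℂ q, χ ^ 3 = 1 → χ ≠ 1 → P Q q χ →
        ‖charSum χ M N‖ ≤ c * Q ^ ((1 - δ) / (n : ℝ) + ε)

theorem result :
    (∀ n : ℕ, 1 ≤ n → ∀ η : ℝ, 0 < η → ∃ δ : ℝ, 0 < δ ∧ ∃ c : ℝ, ∀ Q : ℝ, 3 ≤ Q →
      ∀ N : ℕ, 1 ≤ N → (N : ℝ) ≤ Q ^ (1 / (n : ℝ)) → ∀ M : ℤ,
        ∀ q : ℕ, 1 ≤ q → (q : ℝ) ≤ Q → ∀ χ : DirichletCharacter ℂ q, χ ^ 3 = 1 → χ ≠ 1 →
          largePart χ.conductor (Q ^ ((1 - η) / n)) ≤ Q ^ ((2 - η) / n) →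
            ‖charSum χ M N‖ ≤ c * Q ^ ((1 - δ) / n)) ∧
    (∀ n : ℕ, 1 ≤ n → ∀ η : ℝ, 0 < η →
      (C n (fun _ _ _ => True) ↔
        C n (fun Q _ χ => Q ^ ((2 - η) / n) < largePart χ.conductor (Q ^ ((1 - η) / n))))) := by
  have h1 := fun (n : ℕ) (hn : 1 ≤ n) (η : ℝ) (hη : 0 < η) => Pool.Agent.H18.CS.all n hn η hη
  refine ⟨h1, ?_⟩
  intro n hn η hη
  constructor
  · rintro ⟨δ, hδ, h⟩
    refine ⟨δ, hδ, fun ε hε => ?_⟩
    obtain ⟨c, hc⟩ := h ε hε
    exact ⟨c, fun Q hQ N hN hNQ M q hq hqQ χ h3 hne _ =>
      hc Q hQ N hN hNQ M q hq hqQ χ h3 hne trivial⟩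
  · rintro ⟨δ, hδ, h⟩
    obtain ⟨δ', hδ', c', hc'⟩ := h1 n hn η hη
    refine ⟨min δ δ', lt_min hδ hδ', fun ε hε => ?_⟩
    obtain ⟨c, hc⟩ := h ε hε
    refine ⟨max c c' ⊔ 0, fun Q hQ N hN hNQ M q hq hqQ χ h3 hne _ => ?_⟩
    have hQ1 : (1 : ℝ) ≤ Q := by linarith
    have hn0 : (0 : ℝ) < n := by exact_mod_cast hn
    have hpos : ∀ a : ℝ, 0 < Q ^ a := fun a => Real.rpow_pos_of_pos (by linarith) a
    by_cases hl : largePart χ.conductor (Q ^ ((1 - η) / n)) ≤ Q ^ ((2 - η) / n)
    · refine (hc' Q hQ N hN hNQ M q hq hqQ χ h3 hne hl).trans ?_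
      calc c' * Q ^ ((1 - δ') / n) ≤ (max c c' ⊔ 0) * Q ^ ((1 - δ') / n) :=
            mul_le_mul_of_nonneg_right ((le_max_right c c').trans (le_max_left _ _)) (hpos _).le
        _ ≤ (max c c' ⊔ 0) * Q ^ ((1 - min δ δ') / n + ε) := by
            apply mul_le_mul_of_nonneg_left _ (le_max_right _ _)
            apply Real.rpow_le_rpow_of_exponent_le hQ1
            have : (1 - δ') / n ≤ (1 - min δ δ') / n := by
              apply div_le_div_of_nonneg_right _ hn0.le
              linarith [min_le_right δ δ']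
            linarith
    · push Not at hl
      refine (hc Q hQ N hN hNQ M q hq hqQ χ h3 hne hl).trans ?_
      calc c * Q ^ ((1 - δ) / n + ε) ≤ (max c c' ⊔ 0) * Q ^ ((1 - δ) / n + ε) :=
            mul_le_mul_of_nonneg_right ((le_max_left c c').trans (le_max_left _ _)) (hpos _).le
        _ ≤ (max c c' ⊔ 0) * Q ^ ((1 - min δ δ') / n + ε) := by
            apply mul_le_mul_of_nonneg_left _ (le_max_right _ _)
            apply Real.rpow_le_rpow_of_exponent_le hQ1
            have : (1 - δ) / n ≤ (1 - min δ δ') / n := by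
              apply div_le_div_of_nonneg_right _ hn0.le
              linarith [min_le_left δ δ']
            linarith

end Pool.Agent.Results.MP_081200_nt.FactorableConductors
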