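import Pool.Agent.H18.GA.Pos
import Pool.Graph.R_seed8.Results.MP_081200_nt.FewDigitCubicCharacters

/-!
# The limit law of very short cubic character sums: complex normal, for the conductors on a line

Let `α` run through a line or a parallelogram `F` in `ℤ[ω]` (with a determinant which is at most a fixed power of `N`), let `ψ` be the cubic residue symbol of `α`, a cubic Dirichlet character
modulo the norm of `α`, and consider the short sum `S = ∑ w (n) ψ (n)` over the `N` integers `n` with `M < n ≤ M + N`, where `|w (n)| ≤ 1`, and its variance `V = ∑ |w (n) ψ (n)| ^ 2`.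
Here `M` is fixed and such that no `n` with `w (n) ≠ 0` is nearly a cube: the product of the primes `p ≠ 3` with `3 ∤ v_p (n)` is at least `N ^ C`. This holds for all `w` and for all but at most
`√X` of the positions `M < X` if `X` is at least a certain power of `N`.

**Theorem.** If `(M + N) ^ C ≤ L`, where `F` has `L` or `L ^ 2` members, then given `V` the sum `S` is asymptotically a complex normal random variable of variance `V`:

* for all `a`, `b`, `j` the mean over `F` of `S ^ a * conj S ^ b * V ^ j` is up to `O (N ^ (⌊(a + b - 1) / 2⌋ + j))` equal to `0` for `a ≠ b` and to the mean of `a ! * V ^ (a + j)` for `a = b`;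
* the mean over `F` of `exp (i Re (conj z * S) / √N + i s V / N)`, the joint characteristic function of `S / √N` and `V / N`, differs from the mean of `exp (- |z| ^ 2 V / (4 N) + i s V / N)`
  by at most `ε` for all `|z|, |s| ≤ R` and `N ≥ N₀`.

Since the weights `w` are arbitrary, this contains the joint law of the sums over several intervals, progressions etc. The bound is uniform in `F`, `M` and `w`; the length `N` of the sums is at most a small power
of the conductors.

The symbol of `α` at the powers of three is treated by a supplementary law: the symbol at three of `α` depends only on `α` modulo `9`.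
-/

set_option autoImplicit false

open Finset

namespace Pool.Agent.Results.MP_081200_nt.GaussianLaw

open FewDigitCubicCharacters (Eis nm IsSymbol residue residue_eq prod_zero)

/-- the determinant of the coordinates of two Eisenstein integers -/
def det (x y : Eis) : ℤ := x.re * y.im - x.im * y.re

open Classical in
/-- the line `β + t γ`, `0 ≤ t < L` -/
noncomputable def line (β γ : Eis) (L : ℕ) : Finset Eis := (range L).image (fun t : ℕ => β + (t : Eis) * γ)

open Classical in
/-- the parallelogram `β + s γ₁ + t γ₂`, `0 ≤ s, t < L` -/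
noncomputable def parallelogram (β γ₁ γ₂ : Eis) (L : ℕ) : Finset Eis := (range L ×ˢ range L).image (fun z : ℕ × ℕ => β + (z.1 : Eis) * γ₁ + (z.2 : Eis) * γ₂)

/-- `F` is a line of length `L` or a parallelogram of side length `L`, with a determinant which is not zero and at most `T` in absolute value. -/
def IsFamily (F : Finset Eis) (L T : ℕ) : Prop :=
  (∃ β γ, F = line β γ L ∧ 1 ≤ |det β γ| ∧ |det β γ| ≤ T) ∨ ∃ β γ₁ γ₂, F = parallelogram β γ₁ γ₂ L ∧ 1 ≤ |det γ₁ γ₂| ∧ |det γ₁ γ₂| ≤ T

/-- the product of the primes `p ≠ 3` which occur in `n` with an exponent not divisible by three -/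
def rad (n : ℕ) : ℕ := ∏ p ∈ n.primeFactors.filter (fun p => p ≠ 3 ∧ ¬ 3 ∣ n.factorization p), p

/-- The function `w` is bounded by one, and `rad (n) ≥ T` if `M < n ≤ M + N` and `w (n) ≠ 0`. -/
def IsWeight (w : ℕ → ℂ) (M N T : ℕ) : Prop := (∀ n, ‖w n‖ ≤ 1) ∧ ∀ n ∈ Ioc M (M + N), w n ≠ 0 → T ≤ rad n

/-- the short sum -/
noncomputable def shortSum {q : ℕ} (ψ : DirichletCharacter ℂ q) (w : ℕ → ℂ) (M N : ℕ) : ℂ := ∑ n ∈ Ioc M (M + N), w n * ψ (n : ZMod q)

/-- the variance of the short sum -/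
noncomputable def variance {q : ℕ} (ψ : DirichletCharacter ℂ q) (w : ℕ → ℂ) (M N : ℕ) : ℝ := ∑ n ∈ Ioc M (M + N), ‖w n * ψ (n : ZMod q)‖ ^ 2

/-- the difference of `S ^ a * conj S ^ b * V ^ j` and the corresponding conditional moment of the complex normal law of variance `V` -/
noncomputable def momentDiff (a b j : ℕ) (S : ℂ) (V : ℝ) : ℂ :=
  S ^ a * (starRingEnd ℂ) S ^ b * (V : ℂ) ^ j - (if a = b then (Nat.factorial a : ℂ) * (V : ℂ) ^ (a + j) else 0)

/-- the difference of `exp (i Re (conj z * S) / √N + i s V / N)` and `exp (- |z| ^ 2 V / (4 N) + i s V / N)` -/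
noncomputable def charDiff (z : ℂ) (s : ℝ) (N : ℕ) (S : ℂ) (V : ℝ) : ℂ :=
  Complex.exp (Complex.I * (((starRingEnd ℂ) z * S).re / Real.sqrt N + s * (V / N) : ℝ)) -
    Complex.exp (-((‖z‖ ^ 2 / 4 * (V / N) : ℝ) : ℂ) + Complex.I * (s * (V / N) : ℝ))

open Pool.Agent.X22.CC Pool.Agent.K7.H57.Cub Pool.Agent.H18.GA
open Pool.Agent.Y692.QS (Ei nr nr_mul isUnit_iff)
open Pool.Agent.TH894.NE (box mem_box card_box)

/-- the values of the symbol -/
lemma val_eq {α : Ei} (h3 : ¬ (3 : ℤ) ∣ nr α) (ψ : DirichletCharacter ℂ (nm α).natAbs) (hψ : IsSymbol α ψ) (n : ℕ) :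
    ψ (n : ZMod (nm α).natAbs) = sv α n := by
  obtain ⟨P, hP, hPa, hPψ⟩ := hψ
  have hG := gd_of hP hPa h3
  have hα0 : α ≠ 0 := by
    rintro rfl
    apply h3
    have : nr (0 : Ei) = 0 := by decide
    rw [this]
    exact dvd_zero 3
  have hQ : ∀ π ∈ UniqueFactorizationMonoid.factors α, Prime π := fun π hπ => UniqueFactorizationMonoid.prime_of_factor π hπ
  have hQa := UniqueFactorizationMonoid.factors_prod hα0
  have e1 : GG P (n : Ei) = sv α n := GG_assoc hG (gd_of hQ hQa h3) (hPa.trans hQa.symm) _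
  rw [← e1]
  by_cases hn : n.Coprime (nm α).natAbs
  · rw [hPψ n hn]
    unfold GG
    congr 1
    apply Multiset.map_congr rfl
    intro π hπ
    obtain ⟨h1, h2⟩ := hG π hπ
    exact residue_eq h1 (not_three h2 h1) n
  · have e2 : GG P (n : Ei) = 0 := prod_zero α P hP hPa n hn
    rw [e2]
    apply MulChar.map_nonunit
    rw [ZMod.isUnit_iff_coprime]
    exact hn

lemma sum_eq {α : Ei} (h3 : ¬ (3 : ℤ) ∣ nr α) (ψ : DirichletCharacter ℂ (nm α).natAbs) (hψ : IsSymbol α ψ) (w : ℕ → ℂ) (M N : ℕ) :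
    shortSum ψ w M N = SS w M N α ∧ variance ψ w M N = VV w M N α := by
  constructor
  · unfold shortSum SS
    apply sum_congr rfl
    intro n _
    rw [val_eq h3 ψ hψ]
  · unfold variance VV
    apply sum_congr rfl
    intro n _
    rw [val_eq h3 ψ hψ]

/-- the existence of the symbol -/
lemma exists_symbol (α : Eis) (h3 : ¬ (3 : ℤ) ∣ nm α) : ∃ ψ : DirichletCharacter ℂ (nm α).natAbs, IsSymbol α ψ := by
  classical
  have hf0 : (nm α).natAbs ≠ 0 := by
    intro h
    apply h3
    rw [Int.natAbs_eq_zero.1 h]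
    exact dvd_zero 3
  have : NeZero (nm α).natAbs := ⟨hf0⟩
  have hα0 : (α : Ei) ≠ 0 := by
    intro h
    apply hf0
    rw [h]
    decide
  have hQ : ∀ π ∈ UniqueFactorizationMonoid.factors (α : Ei), Prime π := fun π hπ => UniqueFactorizationMonoid.prime_of_factor π hπ
  have hQa := UniqueFactorizationMonoid.factors_prod hα0
  have hG := gd_of hQ hQa h3
  have hdiv : ∀ m n : ℕ, (m : ZMod (nm α).natAbs) = n → sv α m = sv α n := by
    intro m n hmn
    apply GG_congr hG
    have h1 : (((nm α).natAbs : ℕ) : ℤ) ∣ (n : ℤ) - m := by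
      have := (ZMod.intCast_eq_intCast_iff_dvd_sub (m : ℤ) (n : ℤ) (nm α).natAbs).1 (by exact_mod_cast hmn)
      exact this
    have h2 : α * star α = ((nm α : ℤ) : Ei) := by
      ext
      · rw [Pool.Agent.Y692.QS.mul_re, Pool.Agent.Y692.QS.star_re, Pool.Agent.Y692.QS.star_im]
        simp only [QuadraticAlgebra.re_intCast, nm]
        ring_nf
        rfl
      · rw [Pool.Agent.Y692.QS.mul_im, Pool.Agent.Y692.QS.star_re, Pool.Agent.Y692.QS.star_im]
        simp only [QuadraticAlgebra.im_intCast]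
        ring
    have h3' : (α : Ei) ∣ (m : Ei) - n := by
      have h4 : ((nm α : ℤ) : Ei) ∣ (m : Ei) - n := by
        have h5 : (nm α) ∣ (m : ℤ) - n := by
          have := Int.natAbs_dvd.1 h1
          rw [← neg_sub]
          exact (dvd_neg).2 this
        obtain ⟨c, hc⟩ := h5
        refine ⟨(c : Ei), ?_⟩
        have : (((m : ℤ) - n : ℤ) : Ei) = ((nm α * c : ℤ) : Ei) := by rw [hc]
        push_cast at this
        exact this
      exact (Dvd.intro _ h2).trans h4
    exact hQa.dvd.trans h3'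
  have hmul : ∀ m n : ℕ, sv α (m * n) = sv α m * sv α n := by
    intro m n
    unfold sv
    rw [Nat.cast_mul, GG_mul hG]
  have hone : sv α 1 = 1 := by
    unfold sv
    have := GG_pow hG ((1 : ℕ) : Ei) 0
    rw [pow_zero, pow_zero] at this
    rw [Nat.cast_one]
    exact this
  have hval : ∀ x : ZMod (nm α).natAbs, ((x.val : ℕ) : ZMod (nm α).natAbs) = x := fun x => ZMod.natCast_zmod_val x
  refine ⟨⟨⟨⟨fun x => sv α x.val, ?_⟩, ?_⟩, ?_⟩, ?_⟩
  · show sv α (1 : ZMod (nm α).natAbs).val = 1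
    rw [← hone]
    apply hdiv
    rw [hval, Nat.cast_one]
  · intro x y
    show sv α (x * y).val = sv α x.val * sv α y.val
    rw [← hmul]
    apply hdiv
    rw [hval, Nat.cast_mul, hval, hval]
  · intro x hx
    show sv α x.val = 0
    apply prod_zero α _ hQ hQa
    intro hcop
    apply hx
    rw [← hval x, ZMod.isUnit_iff_coprime]
    exact hcop
  · refine ⟨UniqueFactorizationMonoid.factors (α : Ei), hQ, hQa, fun n _ => ?_⟩
    show sv α ((n : ZMod (nm α).natAbs)).val = _
    rw [hdiv _ n (hval _)]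
    unfold sv GG
    congr 1
    apply Multiset.map_congr rfl
    intro π hπ
    obtain ⟨h1, h2⟩ := hG π hπ
    exact (residue_eq h1 (not_three h2 h1) n).symm

lemma natAbs_bound {x : ℤ} {T : ℕ} (h : |x| ≤ T) : x.natAbs ≤ T := by
  have := Int.natCast_natAbs x
  omega

/-- The passage from the boxes to the families. -/
lemma transfer {F : Finset Eis} {L T : ℕ} (hF : IsFamily F L T) : ∃ (d B : ℕ) (a : (Fin d → ℕ) → Ei), Fam d B a ∧ d ≤ 2 ∧ B ≠ 0 ∧ B ≤ 81 * T ∧ F.card = L ^ d ∧
    ∀ G : Eis → ℂ, ∑ α ∈ F, G α = ∑ m ∈ box d L, G (a m) := by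
  classical
  rcases hF with ⟨β, γ, rfl, h1, h2⟩ | ⟨β, γ₁, γ₂, rfl, h1, h2⟩
  · have hdt : dt β γ = det β γ := rfl
    have hne : dt β γ ≠ 0 := by
      rw [hdt]
      intro h
      rw [h, abs_zero] at h1
      omega
    have hinj : Set.InjOn (fun t : ℕ => β + (t : Eis) * γ) (range L : Set ℕ) := by
      intro t _ t' _ h
      have h3 : ((t : ℤ) - t' : ℤ) * dt β γ = 0 := by
        have e : ((t : Ei)) * γ = (t' : Ei) * γ := add_left_cancel h
        have er := congrArg QuadraticAlgebra.re e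
        have ei := congrArg QuadraticAlgebra.im e
        rw [Pool.Agent.Y692.QS.mul_re, Pool.Agent.Y692.QS.mul_re] at er
        rw [Pool.Agent.Y692.QS.mul_im, Pool.Agent.Y692.QS.mul_im] at ei
        simp only [QuadraticAlgebra.re_natCast, QuadraticAlgebra.im_natCast] at er ei
        unfold dt
        linear_combination β.re * ei - β.im * er
      rcases mul_eq_zero.1 h3 with h4 | h4
      · omega
      · exact absurd h4 hne
    refine ⟨1, 9 * (dt β γ).natAbs, _, line_fam β γ, by norm_num, ?_, ?_, ?_, ?_⟩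
    · have := Int.natAbs_ne_zero.2 hne
      omega
    · have := natAbs_bound h2
      rw [← hdt] at this
      omega
    · unfold line
      rw [card_image_of_injOn hinj, card_range, pow_one]
    · intro G
      unfold line
      rw [sum_image hinj]
      exact (box_one L (fun t => G (β + (t : Eis) * γ))).symm
  · have hdt : dt γ₁ γ₂ = det γ₁ γ₂ := rfl
    have hne : dt γ₁ γ₂ ≠ 0 := by
      rw [hdt]
      intro h
      rw [h, abs_zero] at h1
      omega
    have hinj : Set.InjOn (fun z : ℕ × ℕ => β + (z.1 : Eis) * γ₁ + (z.2 : Eis) * γ₂) ((range L ×ˢ range L : Finset (ℕ × ℕ)) : Set (ℕ × ℕ)) := by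
      intro t _ t' _ h
      have e : β + (t.1 : Ei) * γ₁ + (t.2 : Ei) * γ₂ = β + (t'.1 : Ei) * γ₁ + (t'.2 : Ei) * γ₂ := h
      have er := congrArg QuadraticAlgebra.re e
      have ei := congrArg QuadraticAlgebra.im e
      simp only [QuadraticAlgebra.re_add, QuadraticAlgebra.im_add, Pool.Agent.Y692.QS.mul_re, Pool.Agent.Y692.QS.mul_im, QuadraticAlgebra.re_natCast, QuadraticAlgebra.im_natCast] at er ei
      have h3 : ((t.1 : ℤ) - t'.1 : ℤ) * dt γ₁ γ₂ = 0 := by
        unfold dt
        linear_combination γ₂.im * er - γ₂.re * ei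
      have h4 : ((t.2 : ℤ) - t'.2 : ℤ) * dt γ₁ γ₂ = 0 := by
        unfold dt
        linear_combination γ₁.re * ei - γ₁.im * er
      have h5 := (mul_eq_zero.1 h3).resolve_right hne
      have h6 := (mul_eq_zero.1 h4).resolve_right hne
      apply Prod.ext
      · omega
      · omega
    refine ⟨2, 81 * (dt γ₁ γ₂).natAbs, _, par_fam β γ₁ γ₂, le_refl 2, ?_, ?_, ?_, ?_⟩
    · have := Int.natAbs_ne_zero.2 hne
      omega
    · have := natAbs_bound h2
      rw [← hdt] at this
      omega
    · unfold parallelogram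
      rw [card_image_of_injOn hinj, card_product, card_range, sq]
    · intro G
      unfold parallelogram
      rw [sum_image hinj, sum_product]
      exact (box_two L (fun s t => G (β + (s : Eis) * γ₁ + (t : Eis) * γ₂))).symm

open Classical in
/-- **The limit law of very short cubic character sums.** The cubic residue symbol of every Eisenstein integer of norm prime to three exists as a Dirichlet character modulo the norm, and:

(1) For all `A`, `a`, `b`, `j` there are `C` and `K` such that for `N ≥ 2`, `(M + N) ^ C ≤ L`, all lines and parallelograms `F` of side length `L` with a determinant between `1` and `N ^ A`, and all weights `w`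
the sum of `S ^ a * conj S ^ b * V ^ j` over the members `α` of `F` with norm prime to three differs from the sum of `a ! * V ^ (a + j)` (if `a = b`; from `0` if `a ≠ b`) by at most `K * N ^ (⌊(a + b - 1) / 2⌋ + j) * |F|`.

(2) For all `A`, `R` and `ε > 0` there are `C` and `N₀` such that for `N ≥ N₀` and `M`, `L`, `F`, `w` as above the sums of `exp (i Re (conj z * S) / √N + i s V / N)` and of
`exp (- |z| ^ 2 V / (4 N) + i s V / N)` over these `α` differ by at most `ε * |F|` for all complex `z` and real `s` with `|z|, |s| ≤ R`.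

(3) For all `C` there is `D` such that for `N ≥ 2` and `X ≥ N ^ D` all but at most `√X` of the integers `0 ≤ M < X` are such that `rad (n) ≥ N ^ C` for all `n` with `M < n ≤ M + N`, so every `w` bounded by one is a weight. -/
theorem result :
    (∀ α : Eis, ¬ (3 : ℤ) ∣ nm α → ∃ ψ : DirichletCharacter ℂ (nm α).natAbs, IsSymbol α ψ) ∧
    (∀ A a b j : ℕ, ∃ C K : ℕ, ∀ N M L : ℕ, 2 ≤ N → (M + N) ^ C ≤ L → ∀ F : Finset Eis, IsFamily F L (N ^ A) →
      ∀ w : ℕ → ℂ, IsWeight w M N (N ^ C) →
      ∀ ψ : (α : Eis) → DirichletCharacter ℂ (nm α).natAbs, (∀ α ∈ F, ¬ (3 : ℤ) ∣ nm α → IsSymbol α (ψ α)) →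
        ‖∑ α ∈ F with ¬ (3 : ℤ) ∣ nm α, momentDiff a b j (shortSum (ψ α) w M N) (variance (ψ α) w M N)‖ ≤
          K * (N : ℝ) ^ ((a + b - 1) / 2 + j) * F.card) ∧
    (∀ (A : ℕ) (R ε : ℝ), 0 < ε → ∃ C N₀ : ℕ, ∀ N M L : ℕ, N₀ ≤ N → (M + N) ^ C ≤ L → ∀ F : Finset Eis, IsFamily F L (N ^ A) →
      ∀ w : ℕ → ℂ, IsWeight w M N (N ^ C) →
      ∀ ψ : (α : Eis) → DirichletCharacter ℂ (nm α).natAbs, (∀ α ∈ F, ¬ (3 : ℤ) ∣ nm α → IsSymbol α (ψ α)) →
        ∀ (z : ℂ) (s : ℝ), ‖z‖ ≤ R → |s| ≤ R →
          ‖∑ α ∈ F with ¬ (3 : ℤ) ∣ nm α, charDiff z s N (shortSum (ψ α) w M N) (variance (ψ α) w M N)‖ ≤ ε * F.card) ∧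
    (∀ C : ℕ, ∃ D : ℕ, ∀ N X : ℕ, 2 ≤ N → N ^ D ≤ X →
      ((#{M ∈ range X | ¬ ∀ n ∈ Ioc M (M + N), N ^ C ≤ rad n} : ℕ) : ℝ) ≤ Real.sqrt X) := by
  refine ⟨exists_symbol, ?_, ?_, ?_⟩
  · intro A a b j
    obtain ⟨C, K, h⟩ := fam a b j (A + 7)
    refine ⟨C, K, fun N M L hN hL F hF w hw ψ hψ => ?_⟩
    obtain ⟨d, B, g, hg, hd, hB, hBT, hcard, hsum⟩ := transfer hF
    have hBN : B ≤ N ^ (A + 7) := by
      refine hBT.trans ?_
      calc 81 * N ^ A ≤ 2 ^ 7 * N ^ A := Nat.mul_le_mul_right _ (by norm_num)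
        _ ≤ N ^ 7 * N ^ A := Nat.mul_le_mul_right _ (Nat.pow_le_pow_left hN 7)
        _ = N ^ (A + 7) := by rw [← pow_add, add_comm]
    have h1 := h d B g hg hd hB N M L hN hBN hL w hw.1 hw.2
    have e1 : ∑ α ∈ F with ¬ (3 : ℤ) ∣ nm α, momentDiff a b j (shortSum (ψ α) w M N) (variance (ψ α) w M N) =
        ∑ m ∈ (box d L).filter (fun m => ¬ (3 : ℤ) ∣ nr (g m)), dev a b j (SS w M N (g m)) (VV w M N (g m)) := by
      have e2 : ∑ α ∈ F with ¬ (3 : ℤ) ∣ nm α, momentDiff a b j (shortSum (ψ α) w M N) (variance (ψ α) w M N) =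
          ∑ α ∈ F, if ¬ (3 : ℤ) ∣ nm α then dev a b j (SS w M N α) (VV w M N α) else 0 := by
        rw [← sum_filter]
        apply sum_congr rfl
        intro α hα
        rw [mem_filter] at hα
        obtain ⟨h5, h6⟩ := sum_eq (α := α) hα.2 (ψ α) (hψ α hα.1 hα.2) w M N
        rw [h5, h6]
        rfl
      rw [e2, hsum (fun α => if ¬ (3 : ℤ) ∣ nm α then dev a b j (SS w M N α) (VV w M N α) else 0), sum_filter]
      rfl
    rw [e1]
    refine h1.trans (le_of_eq ?_)
    rw [hcard]
    push_cast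
    rfl
  · intro A R ε hε
    obtain ⟨C, N₀, h⟩ := law (A + 7) R ε hε
    refine ⟨C, N₀ + 2, fun N M L hN hL F hF w hw ψ hψ z s hz hs => ?_⟩
    obtain ⟨d, B, g, hg, hd, hB, hBT, hcard, hsum⟩ := transfer hF
    have hBN : B ≤ N ^ (A + 7) := by
      refine hBT.trans ?_
      calc 81 * N ^ A ≤ 2 ^ 7 * N ^ A := Nat.mul_le_mul_right _ (by norm_num)
        _ ≤ N ^ 7 * N ^ A := Nat.mul_le_mul_right _ (Nat.pow_le_pow_left (by omega) 7)
        _ = N ^ (A + 7) := by rw [← pow_add, add_comm]
    have h1 := h d B g hg hd hB N M L (by omega) hBN hL w hw.1 hw.2 z s hz hs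
    have e1 : ∑ α ∈ F with ¬ (3 : ℤ) ∣ nm α, charDiff z s N (shortSum (ψ α) w M N) (variance (ψ α) w M N) =
        ∑ m ∈ (box d L).filter (fun m => ¬ (3 : ℤ) ∣ nr (g m)), cdev z s N (SS w M N (g m)) (VV w M N (g m)) := by
      have e2 : ∑ α ∈ F with ¬ (3 : ℤ) ∣ nm α, charDiff z s N (shortSum (ψ α) w M N) (variance (ψ α) w M N) =
          ∑ α ∈ F, if ¬ (3 : ℤ) ∣ nm α then cdev z s N (SS w M N α) (VV w M N α) else 0 := by
        rw [← sum_filter]
        apply sum_congr rfl
        intro α hα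
        rw [mem_filter] at hα
        obtain ⟨h5, h6⟩ := sum_eq (α := α) hα.2 (ψ α) (hψ α hα.1 hα.2) w M N
        rw [h5, h6]
        rfl
      rw [e2, hsum (fun α => if ¬ (3 : ℤ) ∣ nm α then cdev z s N (SS w M N α) (VV w M N α) else 0), sum_filter]
      rfl
    rw [e1]
    refine h1.trans (le_of_eq ?_)
    rw [hcard]
    push_cast
    rfl
  · intro C
    obtain ⟨D, h⟩ := positions C
    refine ⟨D, fun N X hN hX => ?_⟩
    have h1 := h N X hN hX
    apply Real.le_sqrt_of_sq_le
    have e1 : #{M ∈ range X | ¬ ∀ n ∈ Ioc M (M + N), N ^ C ≤ rad n} = ((range X).filter (fun M => ∃ n ∈ Ioc M (M + N), rr n < N ^ C)).card := by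
      congr 1
      apply filter_congr
      intro M _
      push Not
      rfl
    rw [e1]
    exact_mod_cast h1

end Pool.Agent.Results.MP_081200_nt.GaussianLaw
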