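import Pool.Agent.H18.RP.Gd
import Pool.Graph.R_pool_sql_team_seeded_35f281b4.K7.H57.Cub.Lin
import Pool.Graph.R_seed8.Results.MP_081200_nt.FewDigitCubicCharacters

/-!
# Square-root cancellation in very short intervals near all rational multiples of the conductor, for the cubic characters of almost all conductors on a line

A sum of a character `ψ` modulo `f` over an interval `(M, M + N]` of length `N = f ^ κ` with small `κ` can be estimated only if something is known on the position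
`M` modulo `f`: for a single cubic character nothing is known for `κ < 1 / 4`, and the almost-all results for conductors in thin families are about positions near `0`.
Here `M` may be near any rational multiple `(j / z) f` of the conductor whose denominator `z` is at most a fixed power of the length, so near all the points of
the Farey dissection (the major arcs) with the denominators up to an arbitrary power of `N`, at the distance up to an arbitrary power of `N`, at the same time.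

**Theorem.** For all `A`, `C` and `δ > 0` there are `c > 0` and `y₀` such that for all `y ≥ y₀` and all lines `{β + t γ : 0 ≤ t < L}` in `ℤ[ω]` with
`1 ≤ |det (β, γ)| ≤ y ^ A`, all but at most `L / y ^ A` of the members `α` of the line have, if `3` does not divide the norm `f` of `α`, the following property:
the cubic residue symbol `ψ` of `α`, a Dirichlet character modulo `f`, satisfies `|∑ w (k) ψ (M + k)| ≤ N ^ (1 / 2 + δ)`, `k = 1, …, H`, for all `N` with
`y ≤ N ≤ L ^ c`, all `H ≤ N`, all `w` from a given set of at most `N ^ A` functions bounded by `1`, and all integers `M` for which there is an integer `z` coprime to `f` with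
`1 ≤ z ≤ N ^ C` such that `z M` differs from a multiple of `f` by at most `N ^ C`. The same holds for the parallelograms `{β + s γ₁ + t γ₂ : 0 ≤ s, t < L}`
with `1 ≤ |det (γ₁, γ₂)| ≤ y ^ A`.

The sum is up to the factor `ψ (z)` a sum over a progression with the difference `z`, which may be far larger than the length `N`; the proof counts the tuples of elements of such a progression
whose product (with exponents `1`, `2`) is a cube up to few primes, by the cubefree parts and with the cube roots modulo `z`.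
-/

set_option autoImplicit false

open Finset

namespace Pool.Agent.Results.MP_081200_nt.NearRationalMultiples

open FewDigitCubicCharacters (Eis nm IsSymbol)

/-- the determinant of the coordinates of two Eisenstein integers -/
def det (x y : Eis) : ℤ := x.re * y.im - x.im * y.re

/-- The integer `M` is near a rational multiple of `f`: for some `z` coprime to `f` with `1 ≤ z ≤ X` and some integer `j` it satisfies `|z M - j f| ≤ X`, that is,
`M` differs from `(j / z) f` by at most `X / z`. -/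
def Near (f : ℤ) (X : ℕ) (M : ℤ) : Prop :=
  ∃ (z : ℕ) (j : ℤ), 1 ≤ z ∧ z ≤ X ∧ IsCoprime (z : ℤ) f ∧ |z * M - j * f| ≤ X

/-- If `3` does not divide the norm `f` of `α` and `ψ` is the cubic residue symbol of `α`, then for all `N` with `y ≤ N ≤ X`, all functions
`w i` with `i ∈ Λ N`, all integers `M` which are near a rational multiple of `f` (with the bound `N ^ C`) and all `H ≤ N` the sum `∑ w i (k) ψ (M + k)` over
`1 ≤ k ≤ H` is at most `N ^ (1 / 2 + δ)` in absolute value. -/
def SmallSums {κ : Type} (w : κ → ℕ → ℂ) (Λ : ℕ → Finset κ) (C : ℕ) (δ : ℝ) (y : ℕ) (X : ℝ) (α : Eis) : Prop :=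
  ¬ (3 : ℤ) ∣ nm α → ∀ ψ : DirichletCharacter ℂ (nm α).natAbs, IsSymbol α ψ →
    ∀ N : ℕ, y ≤ N → (N : ℝ) ≤ X → ∀ i ∈ Λ N, ∀ M : ℤ, Near (nm α) (N ^ C) M → ∀ H : ℕ, H ≤ N →
      ‖∑ k ∈ Icc 1 H, w i k * ψ ((M + k : ℤ) : ZMod (nm α).natAbs)‖ ≤ (N : ℝ) ^ (1 / 2 + δ)

open Pool.Agent.X22.CC Pool.Agent.K7.H57.Cub Pool.Agent.H18.RP
open Pool.Agent.Y692.QS (Ei nr ep star_re epz)

/-- the passage to the symbol of `α` -/
lemma small_of {κ : Type} (w : κ → ℕ → ℂ) (Λ : ℕ → Finset κ) (C : ℕ) (δ : ℝ) (y : ℕ) (X : ℝ) (α : Eis)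
    (h : ∀ N : ℕ, y ≤ N → (N : ℝ) ≤ X → GoodR w Λ C δ N α) : SmallSums w Λ C δ y X α := by
  intro h3 ψ hψ N hyN hNX i hi M hM H hH
  obtain ⟨P, hP, hPa, hPψ⟩ := hψ
  have hP3 : ∀ π ∈ P, ¬ π ∣ 3 := by
    intro π hπ
    refine not_three (fun h => h3 (h.trans (nr_dvd ?_))) (hP π hπ)
    exact (Multiset.dvd_prod hπ).trans hPa.dvd
  have hχψ : ∀ n : ℕ, ψ (n : ZMod (nm α).natAbs) = (P.map (fun π => loc π (n : Ei))).prod := by
    intro n
    by_cases hn : n.Coprime (nm α).natAbs
    · rw [hPψ n hn]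
      congr 1
      apply Multiset.map_congr rfl
      intro π hπ
      exact FewDigitCubicCharacters.residue_eq (hP π hπ) (hP3 π hπ) n
    · rw [FewDigitCubicCharacters.prod_zero α P hP hPa n hn]
      apply MulChar.map_nonunit
      rw [ZMod.isUnit_iff_coprime]
      exact hn
  obtain ⟨z, j, hz, hzC, hzf, hx⟩ := hM
  -- a coprime representation
  obtain ⟨z₁, x, hz₁, hz₁C, hx₁, hcop, hz₁f, hpos⟩ : ∃ (z₁ : ℕ) (x : ℤ), 1 ≤ z₁ ∧ z₁ ≤ N ^ C ∧ |x| ≤ (N : ℤ) ^ C ∧ IsCoprime x (z₁ : ℤ) ∧ IsCoprime (z₁ : ℤ) (nm α) ∧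
      (nm α) ∣ z₁ * M - x := by
    obtain ⟨g, hg⟩ : ∃ g, g = Int.gcd z j := ⟨_, rfl⟩
    have hz0 : (z : ℤ) ≠ 0 := by omega
    have hg0 : g ≠ 0 := by
      rw [hg, Ne, Int.gcd_eq_zero_iff]
      exact fun h => hz0 h.1
    obtain ⟨z', hz'⟩ : (g : ℤ) ∣ z := by rw [hg]; exact Int.gcd_dvd_left _ _
    obtain ⟨j', hj'⟩ : (g : ℤ) ∣ j := by rw [hg]; exact Int.gcd_dvd_right _ _
    have hgZ : (0 : ℤ) < g := by omega
    have hz'0 : 0 < z' := by
      by_contra hcon
      push Not at hcon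
      have : (g : ℤ) * z' ≤ 0 := mul_nonpos_of_nonneg_of_nonpos hgZ.le hcon
      omega
    have hcj : IsCoprime z' j' := by
      rw [Int.isCoprime_iff_gcd_eq_one]
      have h1 : Int.gcd ((g : ℤ) * z') (g * j') = g := by rw [← hz', ← hj', ← hg]
      rw [Int.gcd_mul_left, Int.natAbs_natCast] at h1
      exact Nat.eq_of_mul_eq_mul_left (Nat.pos_of_ne_zero hg0) (by rw [h1, mul_one])
    have hzz : (z'.toNat : ℤ) = z' := Int.toNat_of_nonneg hz'0.le
    have hle : z' ≤ z := by
      rw [hz']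
      nlinarith
    have hz'f : IsCoprime z' (nm α) := by
      rw [hz'] at hzf
      exact hzf.of_mul_left_right
    have hx' : |z' * M - j' * nm α| ≤ (N : ℤ) ^ C := by
      have h1 : (z : ℤ) * M - j * nm α = g * (z' * M - j' * nm α) := by
        rw [hz', hj']
        ring
      rw [h1, abs_mul, abs_of_pos hgZ] at hx
      have h2 : 0 ≤ |z' * M - j' * nm α| := abs_nonneg _
      push_cast at hx
      nlinarith
    refine ⟨z'.toNat, z' * M - j' * nm α, by omega, ?_, hx', ?_, ?_, ?_⟩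
    · have : (z'.toNat : ℤ) ≤ (z : ℤ) := by rw [hzz]; exact hle
      omega
    · rw [hzz]
      have h1 : IsCoprime (-(j' * nm α)) z' := (hcj.symm.mul_left hz'f.symm).neg_left
      have h2 : z' * M - j' * nm α = -(j' * nm α) + z' * M := by ring
      rw [h2]
      exact h1.add_mul_left_left M
    · rw [hzz]
      exact hz'f
    · rw [hzz]
      exact ⟨j', by ring⟩
  -- the multiplication by `ψ (z)`
  obtain ⟨χ, hχ⟩ : ∃ χ : ℤ → ℂ, χ = fun (n : ℤ) => ψ (n : ZMod (nm α).natAbs) := ⟨_, rfl⟩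
  have h5 := h N hyN hNX i hi χ (by
    intro n
    rw [hχ]
    exact DirichletCharacter.norm_le_one ψ _) (by
    intro m n
    rw [hχ]
    simp only
    rw [Int.cast_mul, map_mul]) (by
    refine ⟨(α.re : ZMod 3), (α.im : ZMod 3), fun n hn hn3 => ?_⟩
    rw [hχ]
    simp only [Int.cast_natCast]
    rw [hχψ n]
    exact recip hn hn3 α h3 P hP hPa) z₁ x H hz₁ hz₁C hx₁ hcop hH
  have hzu : ‖ψ (z₁ : ZMod (nm α).natAbs)‖ = 1 := by
    have hu : IsUnit (z₁ : ZMod (nm α).natAbs) := by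
      rw [ZMod.isUnit_iff_coprime, ← Nat.isCoprime_iff_coprime]
      rw [Int.natCast_natAbs]
      exact hz₁f.abs_right
    obtain ⟨e, he⟩ := hu
    rw [← he]
    exact DirichletCharacter.unit_norm_eq_one ψ e
  have e1 : ψ (z₁ : ZMod (nm α).natAbs) * ∑ k ∈ Icc 1 H, w i k * ψ ((M + k : ℤ) : ZMod (nm α).natAbs) = ∑ k ∈ Icc 1 H, w i k * χ (z₁ * k + x) := by
    rw [mul_sum]
    apply sum_congr rfl
    intro k _
    have e2 : ψ (z₁ : ZMod (nm α).natAbs) * ψ ((M + k : ℤ) : ZMod (nm α).natAbs) = χ (z₁ * k + x) := by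
      rw [hχ, ← map_mul]
      simp only
      congr 1
      have e3 : ((z₁ * M - x : ℤ) : ZMod (nm α).natAbs) = 0 := by
        rw [ZMod.intCast_zmod_eq_zero_iff_dvd, Int.natCast_natAbs, abs_dvd]
        exact hpos
      have e4 : ((z₁ * k + x : ℤ) : ZMod (nm α).natAbs) = ((z₁ * (M + k) : ℤ) : ZMod (nm α).natAbs) - ((z₁ * M - x : ℤ) : ZMod (nm α).natAbs) := by
        push_cast
        ring
      rw [e4, e3, sub_zero]
      push_cast
      ring
    rw [← e2]
    ring
  rw [← e1, norm_mul, hzu, one_mul] at h5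
  exact h5

open Classical in
/-- **Cubic characters in short intervals near the rational multiples of the conductor.** For all `A`, `C` and `δ > 0` there are `c > 0` and `y₀` such that for all `y ≥ y₀`,
all `L` and all families of weights `w i` (with `|w i (k)| ≤ 1`; for each `N` a set `Λ N` of at most `N ^ A` of them is used): on each line `{β + t γ : 0 ≤ t < L}` of Eisenstein
integers with `1 ≤ |det (β, γ)| ≤ y ^ A` all but at most `L / y ^ A` of the `L` members `α`, and in each parallelogram `{β + s γ₁ + t γ₂ : 0 ≤ s, t < L}` with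
`1 ≤ |det (γ₁, γ₂)| ≤ y ^ A` (`β` arbitrary) all but at most `L ^ 2 / y ^ A` of the `L ^ 2` members `α` have the following property: if `3` does not divide the norm `f` of `α` and `ψ` is
the cubic residue symbol of `α` (a Dirichlet character modulo `f`), then `|∑ w i (k) ψ (M + k)| ≤ N ^ (1 / 2 + δ)`, `1 ≤ k ≤ H`, for all `N` with `y ≤ N ≤ L ^ c`,
all `i ∈ Λ N`, all `H ≤ N` and all integers `M` for which `|z M - j f| ≤ N ^ C` with integers `j` and `1 ≤ z ≤ N ^ C`, `z` coprime to `f`. -/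
theorem result (A C : ℕ) (δ : ℝ) (hδ : 0 < δ) : ∃ c : ℝ, 0 < c ∧ ∃ y₀ : ℕ, ∀ y L : ℕ, y₀ ≤ y →
    ∀ (κ : Type) (w : κ → ℕ → ℂ) (Λ : ℕ → Finset κ), (∀ i n, ‖w i n‖ ≤ 1) → (∀ N, (Λ N).card ≤ N ^ A) →
      (∀ β γ : Eis, det β γ ≠ 0 → |det β γ| ≤ (y : ℤ) ^ A →
        (((range L).filter (fun t : ℕ => ¬ SmallSums w Λ C δ y ((L : ℝ) ^ c) (β + (t : Eis) * γ))).card : ℝ) ≤ (L : ℝ) / (y : ℝ) ^ A) ∧
      (∀ β γ₁ γ₂ : Eis, det γ₁ γ₂ ≠ 0 → |det γ₁ γ₂| ≤ (y : ℤ) ^ A →
        (((range L ×ˢ range L).filter (fun s : ℕ × ℕ => ¬ SmallSums w Λ C δ y ((L : ℝ) ^ c) (β + (s.1 : Eis) * γ₁ + (s.2 : Eis) * γ₂))).card : ℝ) ≤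
          (L : ℝ) ^ 2 / (y : ℝ) ^ A) := by
  obtain ⟨c₁, hc₁, y₁, h1⟩ := lawR 1 A C δ hδ
  obtain ⟨c₂, hc₂, y₂, h2⟩ := lawR 2 A C δ hδ
  have hmono : ∀ (y L : ℕ), 1 ≤ y → ∀ (c c' : ℝ), 0 < c → c ≤ c' → ∀ N : ℕ, y ≤ N → (N : ℝ) ≤ (L : ℝ) ^ c → (N : ℝ) ≤ (L : ℝ) ^ c' := by
    intro y L hy c c' hc hcc N hyN hN
    rcases Nat.eq_zero_or_pos L with h0 | h0
    · rw [h0, Nat.cast_zero, Real.zero_rpow hc.ne'] at hN
      have : (1 : ℝ) ≤ N := by exact_mod_cast (hy.trans hyN)
      linarith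
    · exact hN.trans (Real.rpow_le_rpow_of_exponent_le (by exact_mod_cast h0) hcc)
  have hdet : ∀ (y : ℕ) (x z : Eis), |det x z| ≤ (y : ℤ) ^ A → (dt x z).natAbs ≤ y ^ A := by
    intro y x z h
    have h3 : ((dt x z).natAbs : ℤ) ≤ (y : ℤ) ^ A := by
      rw [Int.natCast_natAbs]
      exact h
    exact_mod_cast h3
  refine ⟨min c₁ c₂, lt_min hc₁ hc₂, y₁ + y₂ + 1, fun y L hy κ w Λ hw hΛ => ⟨fun β γ hd hd' => ?_, fun β γ₁ γ₂ hd hd' => ?_⟩⟩
  · have h3 := h1 y L (dt β γ).natAbs _ (by omega) (line_aff β γ) (Int.natAbs_ne_zero.2 hd) (hdet y β γ hd') κ w Λ hw hΛ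
    rw [pow_one] at h3
    refine le_trans ?_ h3
    have h4 : ((range L).filter (fun t : ℕ => ¬ SmallSums w Λ C δ y ((L : ℝ) ^ (min c₁ c₂)) (β + (t : Eis) * γ))).card ≤
        ((Pool.Agent.TH894.NE.box 1 L).filter (fun m => ¬ ∀ N : ℕ, y ≤ N → (N : ℝ) ≤ (L : ℝ) ^ c₁ → GoodR w Λ C δ N (β + (m 0 : Ei) * γ))).card := by
      refine card_le_card_of_injOn (fun t => fun _ => t) ?_ ?_
      · intro t ht
        rw [mem_coe, mem_filter, mem_range] at ht
        rw [mem_coe, mem_filter, Pool.Agent.TH894.NE.mem_box]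
        refine ⟨fun _ => ht.1, fun hcon => ht.2 ?_⟩
        apply small_of
        intro N hyN hN
        exact hcon N hyN (hmono y L (by omega) _ _ (lt_min hc₁ hc₂) (min_le_left _ _) N hyN hN)
      · intro t _ t' _ h
        exact congrFun h 0
    exact_mod_cast h4
  · have h3 := h2 y L (dt γ₁ γ₂).natAbs _ (by omega) (par_aff β γ₁ γ₂) (Int.natAbs_ne_zero.2 hd) (hdet y γ₁ γ₂ hd') κ w Λ hw hΛ
    refine le_trans ?_ h3
    have h4 : ((range L ×ˢ range L).filter (fun s : ℕ × ℕ => ¬ SmallSums w Λ C δ y ((L : ℝ) ^ (min c₁ c₂)) (β + (s.1 : Eis) * γ₁ + (s.2 : Eis) * γ₂))).card ≤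
        ((Pool.Agent.TH894.NE.box 2 L).filter (fun m => ¬ ∀ N : ℕ, y ≤ N → (N : ℝ) ≤ (L : ℝ) ^ c₂ → GoodR w Λ C δ N (β + (m 0 : Ei) * γ₁ + (m 1 : Ei) * γ₂))).card := by
      refine card_le_card_of_injOn (fun s => ![s.1, s.2]) ?_ ?_
      · intro s hs
        rw [mem_coe, mem_filter, mem_product, mem_range, mem_range] at hs
        rw [mem_coe, mem_filter, Pool.Agent.TH894.NE.mem_box]
        refine ⟨?_, fun hcon => hs.2 ?_⟩
        · intro i
          fin_cases i
          · exact hs.1.1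
          · exact hs.1.2
        · apply small_of
          intro N hyN hN
          exact hcon N hyN (hmono y L (by omega) _ _ (lt_min hc₁ hc₂) (min_le_right _ _) N hyN hN)
      · intro s _ s' _ h
        have e1 := congrFun h 0
        have e2 := congrFun h 1
        exact Prod.ext e1 e2
    exact_mod_cast h4

end Pool.Agent.Results.MP_081200_nt.NearRationalMultiples
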